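import Pool.Agent.helper96.SV.SpecA

set_option autoImplicit false

namespace Pool.Agent.SVA

open Polynomial Module

theorem DIV (hSCL : SCL_stmt) : DIV_stmt := by
  intro K _ _ _ m e l p hp F hF h0
  have h1 : ∀ β, ∃ G : ℂ[X], F β = (X - C p) * G := by
    intro β
    have : (F β).eval p = 0 := congrFun h0 β
    exact dvd_iff_isRoot.mpr this
  choose G hG using h1
  have hFG : F = fun β => (X - C p) * G β := funext hG
  rw [mem_NN] at hF
  refine ⟨G, ?_, hFG⟩
  rw [mem_NN]
  refine ⟨fun β => ?_, fun Q hQ => ?_⟩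
  · have h2 := hF.1 β
    rw [hG β, degree_mul, degree_X_sub_C] at h2
    by_cases hz : G β = 0
    · rw [hz, degree_zero]
      exact WithBot.bot_lt_coe e
    · rw [degree_eq_natDegree hz] at h2 ⊢
      have h3 : (1 + (G β).natDegree : ℕ) < e + 1 := by exact_mod_cast h2
      exact_mod_cast (by omega : (G β).natDegree < e)
  · have h3 := hF.2 Q hQ
    rw [hFG] at h3
    refine (hSCL (X - C p) Q G ?_).mp h3
    rw [eval_sub, eval_X, eval_C]
    exact sub_ne_zero.mpr (hp Q hQ)

end Pool.Agent.SVA
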