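import Pool.Agent.helper96.SV.SpecA

set_option autoImplicit false

namespace Pool.Agent.SVA

open Polynomial Module

theorem MNO : MNO_stmt := by
  intro K _ _ m e e' l l' hee hll
  have h1 : NN e l ≤ NN e' l' := by
    intro F hF
    rw [mem_NN] at hF ⊢
    refine ⟨fun β => lt_of_lt_of_le (hF.1 β) (by exact_mod_cast hee), fun P hP => hF.2 P (hll P hP)⟩
  exact ⟨h1, Submodule.finrank_mono h1⟩

end Pool.Agent.SVA
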