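import Pool.Agent.helper96.SV.SpecA

set_option autoImplicit false

namespace Pool.Agent.SVA

open Polynomial Module

theorem SCL_ev {K : Type} [Fintype K] [DecidableEq K] {m : K → ℕ} (u : ℂ[X]) (p : ℂ)
    (F : Bx m → ℂ[X]) : ev p (fun β => u * F β) = u.eval p • ev p F := by
  funext β
  simp [ev]

theorem SCL_dv {K : Type} [Fintype K] [DecidableEq K] {m : K → ℕ} (u : ℂ[X]) (p : ℂ)
    (F : Bx m → ℂ[X]) : dv p (fun β => u * F β) =
      (derivative u).eval p • ev p F + u.eval p • dv p F := by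
  funext β
  simp [ev, dv, derivative_mul]

theorem SCL (hTEN : TEN_stmt) : SCL_stmt := by
  intro K _ _ _ m u P F hu
  have hT : ten P.1 ∈ Tan P.1 := (hTEN (K := K) (m := m)).2.1 P.1
  rw [mem_Sg, mem_Sg, SCL_ev, SCL_dv]
  constructor
  · rintro ⟨h1, h2⟩
    have h3 : ∀ z ∈ Tan P.1, pr (ev P.2 F) z = 0 := by
      intro z hz
      have := h1 z hz
      rw [pr_smul_left] at this
      exact (mul_eq_zero.mp this).resolve_left hu
    refine ⟨h3, ?_⟩
    rw [pr_add_left, pr_smul_left, pr_smul_left, h3 _ hT, mul_zero, zero_add] at h2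
    exact (mul_eq_zero.mp h2).resolve_left hu
  · rintro ⟨h1, h2⟩
    refine ⟨fun z hz => ?_, ?_⟩
    · rw [pr_smul_left, h1 z hz, mul_zero]
    · rw [pr_add_left, pr_smul_left, pr_smul_left, h1 _ hT, h2, mul_zero, mul_zero, add_zero]

end Pool.Agent.SVA
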