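import Pool.Agent.helper96.SV.SpecA

set_option autoImplicit false

namespace Pool.Agent.SVA

open Polynomial Module

theorem TEN_single {K : Type} [Fintype K] [DecidableEq K] {m : K → ℕ} (β : Bx m) :
    ten (fun i => Pi.single (β i) 1 : Py m) = Pi.single β 1 := by
  funext γ
  by_cases h : γ = β
  · subst h
    simp [ten]
  · rw [Pi.single_eq_of_ne h]
    obtain ⟨i, hi⟩ := Function.ne_iff.mp h
    exact Finset.prod_eq_zero (Finset.mem_univ i) (Pi.single_eq_of_ne hi 1)

theorem TEN : TEN_stmt := by
  intro K _ _ _ m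
  refine ⟨?_, ?_, ?_, ?_⟩
  · intro a ha
    obtain ⟨β, hβ⟩ := Function.ne_iff.mp ha
    refine ⟨fun i => Pi.single (β i) 1, ?_⟩
    rw [TEN_single]
    simpa [pr, Pi.single_apply] using hβ
  · intro y
    apply Submodule.subset_span
    obtain ⟨i⟩ := (inferInstance : Nonempty K)
    exact ⟨i, y i, by rw [Function.update_eq_self]⟩
  · intro a y h i hi
    apply h
    have : ten y = 0 := by
      funext β
      exact Finset.prod_eq_zero (Finset.mem_univ i) (by rw [hi]; rfl)
    rw [this, pr_zero_right]
  · intro y hy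
    have h1 : ∀ i, ∃ j, y i j ≠ 0 := fun i => Function.ne_iff.mp (hy i)
    choose β hβ using h1
    intro h0
    have h2 : ten y β = 0 := by rw [h0]; rfl
    exact Finset.prod_ne_zero_iff.mpr (fun i _ => hβ i) h2

end Pool.Agent.SVA
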