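import Pool.Agent.helper25.SVA.ALG
import Pool.Agent.helper24.SV.BLD
import Pool.Agent.helper87.SV.BLK
import Pool.Agent.helper92.SVA.BR1
import Pool.Agent.helper89.SVA.BR2
import Pool.Agent.helper24.SV.BR3
import Pool.Agent.helper89.SVA.BST
import Pool.Agent.helper65.SVA.CNT
import Pool.Agent.helper25.SVA.CRI
import Pool.Agent.helper96.SVA.DIV
import Pool.Agent.helper75.SVA.DVV
import Pool.Agent.helper24.SV.FVR
import Pool.Agent.helper45.SVA.GZT
import Pool.Agent.helper55.SV.ITR
import Pool.Agent.helper65.SVA.KEY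
import Pool.Agent.helper45.SVA.KZ
import Pool.Agent.helper50.SV.LIN
import Pool.Agent.helper95.SVA.LQA
import Pool.Agent.helper95.SVA.LQB
import Pool.Agent.helper96.SVA.MNO
import Pool.Agent.helper51.SVA.MU
import Pool.Agent.helper3.SVA.MU1
import Pool.Agent.helper11.SVA.MU2
import Pool.Agent.helper11.SVA.MU3
import Pool.Agent.helper29.SVA.PDV
import Pool.Agent.helper77.SVA.PFR
import Pool.Agent.helper45.SVA.PHD
import Pool.Agent.helper64.SVA.PHE
import Pool.Agent.helper72.SVA.REL
import Pool.Agent.helper61.SVA.ROT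
import Pool.Agent.helper96.SVA.SCL
import Pool.Agent.helper25.SVA.SEM
import Pool.Agent.helper59.SVA.SIG
import Pool.Agent.helper50.SV.STA
import Pool.Agent.helper33.SV.STP
import Pool.Agent.helper65.SVA.SUR
import Pool.Agent.helper16.SVA.TDM
import Pool.Agent.helper96.SVA.TEN
import Pool.Agent.helper52.SV.WDM
import Pool.Agent.helper53.SV.T1

/-! # Project sva: assembly up to CRI and BR3 -/

set_option autoImplicit false

namespace Pool.Agent.SVA

theorem allWDM : WDM_stmt := WDM
theorem allGZT : GZT_stmt := GZT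
theorem allTEN : TEN_stmt := TEN
theorem allTDM : TDM_stmt := TDM
theorem allCNT : CNT_stmt := CNT allWDM allTDM
theorem allMNO : MNO_stmt := MNO
theorem allSCL : SCL_stmt := SCL allTEN
theorem allDIV : DIV_stmt := DIV allSCL
theorem allBLD : BLD_stmt := BLD BLK PHD
theorem allLQA : LQA_stmt := LQA Pool.Agent.SV.T1
theorem allLQB : LQB_stmt := LQB Pool.Agent.SV.T1
theorem allSEM : SEM_stmt := SEM allLQA PHE allSCL
theorem allLIN : LIN_stmt := LIN Pool.Agent.SV.T1
theorem allREL : REL_stmt := REL allTDM allWDM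
theorem allFVR : FVR_stmt := FVR allTEN
theorem allKZ : KZ_stmt := KZ allLQB PHE PFR allSCL SIG allFVR
theorem allMU : MU_stmt := MU (MU2 MU1) MU3
theorem allROT : ROT_stmt := ROT allGZT
theorem allKEY : KEY_stmt := KEY allREL allMU allROT allGZT allKZ allBLD allSEM allCNT allDIV allMNO
  allTEN
theorem allITR : ITR_stmt := ITR allKEY
theorem allSUR : SUR_stmt := SUR allDIV allCNT allTDM allTEN
theorem allSTA : STA_stmt := STA allWDM
theorem allBST : BST_stmt := BST allSEM allBLD allCNT
theorem allSTP : STP_stmt := STP allITR allLIN allSUR allCNT allDIV allTEN DVV allMNO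
theorem allALG : ALG_stmt := ALG allSTA allBST allSTP
theorem allCRI : CRI_stmt := CRI allALG DVV allMNO
theorem allBR2 : BR2_stmt := BR2 BR1 PDV
theorem allBR3 : BR3_stmt := BR3 BR1 allBR2

end Pool.Agent.SVA
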