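import Pool.Agent.helper96.SVA.All
import Pool.Agent.helper87.SV.E1E
import Pool.Agent.helper96.SV.ALE

/-! # Project sva: E1E is proved -/

set_option autoImplicit false

namespace Pool.Agent.SVA

theorem allE1E (hALR : Pool.Agent.SV.ALR_stmt) (hDIM : Pool.Agent.SV.DIM_stmt)
    (hMHS : Pool.Agent.SV.MHS_stmt) : E1E_stmt := E1E allCRI allBR3 hALR hDIM hMHS

end Pool.Agent.SVA
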